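import Pool.Agent.Fol.Plain

/-!
# A power larger than one in the exponent, for the first Grigorchuk group and many others
-/

namespace Pool.Agent.Results.MP_0d61b9_al.GrigorchukPower

open Pool.Agent.Fol

/-- Let `ω` be a nonconstant sequence in `{0, 1, 2}` in which every letter that occurs recurs with gaps
at most `R` (for instance a nonconstant periodic sequence; `ω k = k mod 3` gives the first Grigorchuk
group), and let `G` be a group with a finite generating set `S` of which a subgroup `K` maps onto
the Grigorchuk group of `ω` (for instance `G = K = Grig ω`). Then the Folner function of `G` is at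
least `exp (c * n ^ (26 / 25)) / C` for all `n`. -/
theorem result (ω : ℕ → Fin 3) (R : ℕ) (hR : ∀ i j : ℕ, ∃ l, j ≤ l ∧ l ≤ j + R ∧ ω l = ω i)
    (hω : ∃ i, ω i ≠ ω 0)
    (G : Type) [Group G] (K : Subgroup G) (π : K →* Grig ω) (hπ : Function.Surjective π)
    (S : Finset G) (hS : Subgroup.closure (S : Set G) = ⊤) :
    ∃ c : ℝ, 0 < c ∧ ∃ C : ℝ, 0 < C ∧ ∀ n : ℕ, ∀ F : Finset G, F.Nonempty →
        n * Nat.card {g : G // g ∈ F ∧ ∃ s ∈ S, g * s ∉ F} ≤ F.card →
        Real.exp (c * (n : ℝ) ^ (26 / 25 : ℝ)) ≤ C * (F.card : ℝ) := by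
  have hsurj : Function.Surjective (((MulEquiv.subgroupCongr (Grig_eq ω)).toMonoidHom).comp π) :=
    (MulEquiv.subgroupCongr (Grig_eq ω)).surjective.comp hπ
  exact folner_power (ω := ω) hR hω hS K _ hsurj

end Pool.Agent.Results.MP_0d61b9_al.GrigorchukPower
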