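import Pool.Agent.Fol.Plain

/-!
# The Folner function of every Grigorchuk group is strictly larger than exponential

The groups `Grig ω`, for `ω` not eventually constant, are the Grigorchuk groups of intermediate
growth. The theorem holds more generally for every finitely generated group `G` of which some
subgroup maps onto `Grig ω`.
-/

namespace Pool.Agent.Results.MP_0d61b9_al.GrigorchukSuperexp

open Pool.Agent.Fol

/-- Let `ω` be a sequence in `{0, 1, 2}` which is not eventually constant, and let `G` be a group with
a finite generating set `S` of which a subgroup `K` maps onto the Grigorchuk group of `ω` (for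
instance `G = K = Grig ω`). Then the Folner function of `G` is at least exponential, and it is not
bounded by any exponential function. -/
theorem result (ω : ℕ → Fin 3) (hω : ∀ k, ∃ l, k ≤ l ∧ ω l ≠ ω k)
    (G : Type) [Group G] (K : Subgroup G) (π : K →* Grig ω) (hπ : Function.Surjective π)
    (S : Finset G) (hS : Subgroup.closure (S : Set G) = ⊤) :
    (∃ c : ℝ, 0 < c ∧ ∃ C : ℝ, 0 < C ∧ ∀ n : ℕ, ∀ F : Finset G, F.Nonempty →
        n * Nat.card {g : G // g ∈ F ∧ ∃ s ∈ S, g * s ∉ F} ≤ F.card →
        Real.exp (c * n) ≤ C * (F.card : ℝ)) ∧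
    (∀ C : ℝ, ∃ n : ℕ, ∀ F : Finset G, F.Nonempty →
        n * Nat.card {g : G // g ∈ F ∧ ∃ s ∈ S, g * s ∉ F} ≤ F.card →
        C * Real.exp (C * n) < (F.card : ℝ)) := by
  have hsurj : Function.Surjective (((MulEquiv.subgroupCongr (Grig_eq ω)).toMonoidHom).comp π) :=
    (MulEquiv.subgroupCongr (Grig_eq ω)).surjective.comp hπ
  exact folner_main (ω := ω) hω hS K _ hsurj

end Pool.Agent.Results.MP_0d61b9_al.GrigorchukSuperexp
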