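import Pool.Agent.Fol.RootFinal

/-!
# The Folner function of spinal groups with an arbitrary root group

`Spinal x₀ ω` is the group of permutations of the words in the letters `X` generated by the rooted
permutations (`rootF a` moves the first letter by the element `a` of the finite group `A`, which acts on
the finite set `X`) and the directed permutations (`dirF x₀ ω b 0`, `b` in the finite group `B`): the
latter move, in a word `x₀, ..., x₀, x, y, ...` with `x ≠ x₀` in the place `k`, the letter `y` by
`ω k x b`. The groups `A` and `B` need not be abelian and the action need not be regular.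
-/

namespace Pool.Agent.Results.MP_0d61b9_al.NonabelianSpinal

open Pool.Agent.Fol.Rt

/-- Let the finite group `A` act transitively on the finite set `X`, let `B` be a finite group and
`ω k x : B → A` homomorphisms such that for every `k` there is `g` in `A` which moves `x₀` such that
`ω k (g x₀)` is onto and `ω k (g⁻¹ x₀)` is trivial. Let `G` be a group with a finite generating set `S`
of which a subgroup `K` maps onto `Spinal x₀ ω`. Then the Folner function of `G` is at least
`exp (c * n ^ (log |X| / log 2)) / C` for all `n`, and asymptotically strictly larger than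
exponential. -/
theorem result (A B X : Type) [Group A] [Finite A] [Group B] [Finite B] [Finite X] [MulAction A X]
    [MulAction.IsPretransitive A X] (x₀ : X) (ω : ℕ → X → B →* A)
    (hω : ∀ k, ∃ g : A, g • x₀ ≠ x₀ ∧ Function.Surjective (ω k (g • x₀)) ∧
      ∀ b, ω k (g⁻¹ • x₀) b = 1)
    (G : Type) [Group G] (K : Subgroup G) (π : K →* Spinal x₀ ω) (hπ : Function.Surjective π)
    (S : Finset G) (hS : Subgroup.closure (S : Set G) = ⊤) :
    (∃ c : ℝ, 0 < c ∧ ∃ C : ℝ, 0 < C ∧ ∀ n : ℕ, ∀ F : Finset G, F.Nonempty →
        n * Nat.card {g : G // g ∈ F ∧ ∃ s ∈ S, g * s ∉ F} ≤ F.card →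
        Real.exp (c * (n : ℝ) ^ (Real.log (Nat.card X) / Real.log 2)) ≤ C * (F.card : ℝ)) ∧
    (∀ C : ℝ, ∃ n : ℕ, ∀ F : Finset G, F.Nonempty →
        n * Nat.card {g : G // g ∈ F ∧ ∃ s ∈ S, g * s ∉ F} ≤ F.card →
        C * Real.exp (C * n) < (F.card : ℝ)) :=
  root_main hω hS K π hπ

end Pool.Agent.Results.MP_0d61b9_al.NonabelianSpinal
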