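import Pool.Agent.Fol.SpinFinal

/-!
# The Folner function of spinal groups

`Spinal ω` is the group of permutations of the words in the letters `A` (`A` a finite abelian group)
generated by the multiplications of the first letter (`rootF a`) and the directed permutations
(`dirF ω b 0`): the latter multiply, in a word `1, ..., 1, x, y, ...` with `x ≠ 1` in the place `k`, the
letter `y` by `ω k x b`. For `A` cyclic of order `p` these are for example the GGS groups (`B = A`,
`ω k x` independent of `k`), among them the Gupta-Sidki groups and the Fabrykowski-Gupta group, and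
the Grigorchuk `p`-groups.
-/

namespace Pool.Agent.Results.MP_0d61b9_al.SpinalGroups

open Pool.Agent.Fol.Sp

/-- Let `A` be an abelian group with at least three (finitely many) elements, `B` a finite abelian group
and `ω k x : B → A` homomorphisms such that `Good (ω k)` for every `k`. Let `G` be a group with a
finite generating set `S` of which a subgroup `K` maps onto `Spinal ω`. Then the Folner function of `G`
is at least `exp (c * n ^ (log |A| / log 2)) / C` for all `n`, and asymptotically strictly larger than
exponential. -/
theorem result (A B : Type) [CommGroup A] [CommGroup B] [Finite B] (hA : 3 ≤ Nat.card A)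
    (ω : ℕ → A → B →* A) (hω : ∀ k, Good (ω k))
    (G : Type) [Group G] (K : Subgroup G) (π : K →* Spinal ω) (hπ : Function.Surjective π)
    (S : Finset G) (hS : Subgroup.closure (S : Set G) = ⊤) :
    (∃ c : ℝ, 0 < c ∧ ∃ C : ℝ, 0 < C ∧ ∀ n : ℕ, ∀ F : Finset G, F.Nonempty →
        n * Nat.card {g : G // g ∈ F ∧ ∃ s ∈ S, g * s ∉ F} ≤ F.card →
        Real.exp (c * (n : ℝ) ^ (Real.log (Nat.card A) / Real.log 2)) ≤ C * (F.card : ℝ)) ∧
    (∀ C : ℝ, ∃ n : ℕ, ∀ F : Finset G, F.Nonempty →
        n * Nat.card {g : G // g ∈ F ∧ ∃ s ∈ S, g * s ∉ F} ≤ F.card →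
        C * Real.exp (C * n) < (F.card : ℝ)) :=
  spinal_main hA hω hS K π hπ

end Pool.Agent.Results.MP_0d61b9_al.SpinalGroups
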